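import Pool.Agent.H440R5.Asymp

/-!
# The conjectured space/time tradeoff for `k`-reachability oracles is false

For every `k ≥ 3` the bound `S * T ^ (2 / (k - 1)) = Ω~(n ^ 2)` fails in every range
`T ≤ n ^ δ`. For every `k ≥ 2` there are data structures on the word RAM with
`S * T ^ (k / ⌊k ^ 2 / 4⌋) = O~(n ^ 2)`, for all `T` between `1` and `n ^ (⌊k ^ 2 / 4⌋ / k ^ 2)`
(for even `k`: `S * T ^ (4 / k) = O~(n ^ 2)` for `T ≤ n ^ (1 / 4)`).

The data structure stores the pairs `(x, y)` joined by a walk of length `j ≤ k` for which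
`outdeg x * indeg y ≥ D`, or `outdeg y ≥ D`, or all inner vertices of the walk have out-degree
less than `D`. A path from `u` to `v` is found by exploring from both ends until one of these
pairs is reached; a balancing argument shows that the cost of exploring one suitable side pattern
is at most `D ^ (⌊k ^ 2 / 4⌋ / k)` up to logarithmic factors. The probes are non-adaptive, so the
query algorithm is one fixed word RAM program which runs a finite automaton (a trie) stored in
memory on two streams of bits, one depending on `u` only and one depending on `v` only.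
-/

namespace Pool.Agent.Results.MP_a349b4_lc.ReachTradeoff

open Pool.Agent.H440R5

theorem result :
    ¬ TradeoffConjecture ∧ (∀ k : ℕ, 3 ≤ k → ¬ TradeoffAt k) ∧
    ∀ k C : ℕ, 2 ≤ k → ∀ σ : ℝ, 0 < σ → σ ≤ ((k ^ 2 / 4 : ℕ) : ℝ) / (k : ℝ) ^ 2 →
      ∃ S T : ℕ → ℕ, HasOracle k C S T ∧ ∃ a b : ℝ, 0 < a ∧ 0 < b ∧ ∀ n : ℕ, 2 ≤ n →
        (T n : ℝ) ≤ a * (Real.log n) ^ b * (n : ℝ) ^ σ ∧
        (S n : ℝ) ≤ a * (Real.log n) ^ b * (n : ℝ) ^ (2 - σ * k / ((k ^ 2 / 4 : ℕ) : ℝ)) :=
  ⟨fun h => not_tradeoffAt 3 le_rfl (h 3 (by norm_num)), not_tradeoffAt, tradeoff⟩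

end Pool.Agent.Results.MP_a349b4_lc.ReachTradeoff
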